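import Mathlib
import Pool.Agent.KS6_75.FU.G8

set_option autoImplicit false

namespace Pool.Agent.Results.MP_0c7c15_an.PowersOfTwo

open Pool.Agent.Helper278 Pool.Agent.Helper436.SM Pool.Agent.Helper436.SN
open Pool.Agent.Helper436.AD Pool.Agent.KS6_75.FU

/-- There is a separable II₁ factor `N` such that for every nonprincipal ultrafilter `U` on `ℕ` the
fundamental group of the tracial ultrapower `Q = N^U` is contained in `{2^k : k ∈ ℤ}`: if `t > 0` is
not an integral power of two, then no model `p M_n(Q) p`, `(Tr ⊗ φ)(p) = t`, of the amplification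
`Q^t` is star isomorphic to `Q`, while there are such models for every `t > 0`. -/
theorem result :
    ∃ N : TU.SepFactor, ∀ U : Ultrafilter ℕ, (∀ n, {n} ∉ U) →
      Nonempty (TU.UltraPow U N) ∧
        ∀ (Q : Type) [Ring Q] [StarRing Q] [Algebra ℂ Q] (π : (ℕ → Elt N.alg) → Q) (φ : Q → ℂ),
          CE.IsTracialUltrapower N.tr U π φ →
            (∀ t : ℝ, 0 < t → ∃ (n : ℕ) (p : Matrix (Fin n) (Fin n) Q), IsAmpProj φ t p) ∧
              ∀ t ∈ FundGroup φ, ∃ k : ℤ, t = (2 : ℝ) ^ k :=
  sep_fund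

end Pool.Agent.Results.MP_0c7c15_an.PowersOfTwo
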